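import Pool.Agent.Helper53.BM.Push

set_option autoImplicit false

open Filter Topology Pool.Agent.Helper53.BM

universe u

/-- **The rotation problem for asymptotically Euclidean spaces.** Let `E` be an infinite
dimensional real Banach space whose norm is almost transitive (in particular: transitive). Suppose
that `E` is asymptotically Euclidean: for every `ε > 0` there is a closed subspace `Z` of finite
codimension on which the parallelogram inequality holds up to the factor `2 + ε`. Then `E` is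
linearly isometric to a Hilbert space. -/
theorem Pool.Agent.Results.MP_cc72b1_an.AsymptoticallyEuclidean.result
    (E : Type u) [NormedAddCommGroup E] [NormedSpace ℝ E] [CompleteSpace E]
    (hinf : ¬ FiniteDimensional ℝ E)
    (htrans : ∀ x y : E, ‖x‖ = 1 → ‖y‖ = 1 → ∀ ε : ℝ, 0 < ε →
      ∃ T : E ≃ₗᵢ[ℝ] E, ‖T x - y‖ < ε)
    (hasym : ∀ ε : ℝ, 0 < ε → ∃ Z : Submodule ℝ E, IsClosed (Z : Set E) ∧
      FiniteDimensional ℝ (E ⧸ Z) ∧ ∀ x ∈ Z, ∀ y ∈ Z,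
        ‖x + y‖ ^ 2 + ‖x - y‖ ^ 2 ≤ (2 + ε) * (‖x‖ ^ 2 + ‖y‖ ^ 2)) :
    ∃ (H : Type u) (instH : NormedAddCommGroup H) (instI : InnerProductSpace ℝ H)
      (instC : CompleteSpace H), Nonempty (E ≃ₗᵢ[ℝ] H) := by
  -- the parallelogram inequality up to `ε` holds on all of `E`
  have key : ∀ ε : ℝ, 0 < ε → ∀ x y : E,
      ‖x + y‖ ^ 2 + ‖x - y‖ ^ 2 ≤ (2 + ε) * (‖x‖ ^ 2 + ‖y‖ ^ 2) := by
    intro ε hε x y
    obtain ⟨Z, hZ, hfin, hpar⟩ := hasym ε hε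
    obtain ⟨n, ξ, a, hP, -, -⟩ := exists_functionals Z hZ hfin
    set A : ℝ := 1 + ∑ j, ‖a j‖ with hA
    have hA0 : 0 < A := by
      have : 0 ≤ ∑ j, ‖a j‖ := Finset.sum_nonneg fun _ _ => norm_nonneg _
      linarith
    have step : ∀ κ : ℝ, 0 < κ →
        ‖x + y‖ ^ 2 - 4 * κ * ‖x + y‖ + (‖x - y‖ ^ 2 - 4 * κ * ‖x - y‖) ≤
          (2 + ε) * ((‖x‖ + κ) ^ 2 + (‖y‖ + κ) ^ 2) := by
      intro κ hκ
      obtain ⟨T, hT1, hT2⟩ := push hinf htrans (fun ζ σ hσ => bidual_close hasym ζ hσ) x y ξ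
        (η := κ / A) (by positivity)
      have hr : ∀ w : E, (∀ j, |ξ j w| ≤ κ / A) → ‖∑ j, ξ j w • a j‖ ≤ κ := by
        intro w hw
        calc ‖∑ j, ξ j w • a j‖ ≤ ∑ j, κ / A * ‖a j‖ := by
              refine (norm_sum_le _ _).trans (Finset.sum_le_sum fun j _ => ?_)
              rw [norm_smul, Real.norm_eq_abs]
              gcongr
              exact hw j
          _ = κ / A * ∑ j, ‖a j‖ := by rw [Finset.mul_sum]
          _ ≤ κ / A * A := by gcongr; rw [hA]; linarith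
          _ = κ := by field_simp
      set x' : E := T x - ∑ j, ξ j (T x) • a j with hx'
      set y' : E := T y - ∑ j, ξ j (T y) • a j with hy'
      have hrx := hr (T x) hT1
      have hry := hr (T y) hT2
      set r := ∑ j, ξ j (T x) • a j with hrdef
      set s := ∑ j, ξ j (T y) • a j with hsdef
      have h1 := hpar x' (hP (T x)) y' (hP (T y))
      have hx'n : ‖x'‖ ≤ ‖x‖ + κ := by
        calc ‖x'‖ ≤ ‖T x‖ + ‖r‖ := norm_sub_le _ _
          _ ≤ ‖x‖ + κ := by rw [T.norm_map]; gcongr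
      have hy'n : ‖y'‖ ≤ ‖y‖ + κ := by
        calc ‖y'‖ ≤ ‖T y‖ + ‖s‖ := norm_sub_le _ _
          _ ≤ ‖y‖ + κ := by rw [T.norm_map]; gcongr
      have hs : ‖x + y‖ ≤ ‖x' + y'‖ + 2 * κ := by
        have e : T (x + y) = (x' + y') + (r + s) := by
          rw [map_add, hx', hy']; abel
        calc ‖x + y‖ = ‖T (x + y)‖ := (T.norm_map _).symm
          _ ≤ ‖x' + y'‖ + ‖r + s‖ := by rw [e]; exact norm_add_le _ _
          _ ≤ ‖x' + y'‖ + (‖r‖ + ‖s‖) := by gcongr; exact norm_add_le _ _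
          _ ≤ ‖x' + y'‖ + 2 * κ := by linarith
      have hd : ‖x - y‖ ≤ ‖x' - y'‖ + 2 * κ := by
        have e : T (x - y) = (x' - y') + (r - s) := by
          rw [map_sub, hx', hy']; abel
        calc ‖x - y‖ = ‖T (x - y)‖ := (T.norm_map _).symm
          _ ≤ ‖x' - y'‖ + ‖r - s‖ := by rw [e]; exact norm_add_le _ _
          _ ≤ ‖x' - y'‖ + (‖r‖ + ‖s‖) := by gcongr; exact norm_sub_le _ _
          _ ≤ ‖x' - y'‖ + 2 * κ := by linarith
      have aux : ∀ t t' : ℝ, 0 ≤ t → 0 ≤ t' → t ≤ t' + 2 * κ → t ^ 2 - 4 * κ * t ≤ t' ^ 2 := by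
        intro t t' ht ht' h
        rcases le_or_gt t (2 * κ) with h2 | h2
        · nlinarith
        · nlinarith
      have h2 := aux _ _ (norm_nonneg _) (norm_nonneg _) hs
      have h3 := aux _ _ (norm_nonneg _) (norm_nonneg _) hd
      have h4 : (2 + ε) * (‖x'‖ ^ 2 + ‖y'‖ ^ 2) ≤
          (2 + ε) * ((‖x‖ + κ) ^ 2 + (‖y‖ + κ) ^ 2) := by gcongr
      linarith
    have hc1 : Tendsto (fun κ : ℝ => ‖x + y‖ ^ 2 - 4 * κ * ‖x + y‖ +
        (‖x - y‖ ^ 2 - 4 * κ * ‖x - y‖)) (𝓝[>] 0) (𝓝 (‖x + y‖ ^ 2 - 4 * 0 * ‖x + y‖ +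
        (‖x - y‖ ^ 2 - 4 * 0 * ‖x - y‖))) := by
      apply Continuous.tendsto' (by fun_prop) _ _ rfl |>.mono_left nhdsWithin_le_nhds
    have hc2 : Tendsto (fun κ : ℝ => (2 + ε) * ((‖x‖ + κ) ^ 2 + (‖y‖ + κ) ^ 2)) (𝓝[>] 0)
        (𝓝 ((2 + ε) * ((‖x‖ + 0) ^ 2 + (‖y‖ + 0) ^ 2))) := by
      apply Continuous.tendsto' (by fun_prop) _ _ rfl |>.mono_left nhdsWithin_le_nhds
    have := le_of_tendsto_of_tendsto hc1 hc2 (by
      filter_upwards [self_mem_nhdsWithin] with κ hκ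
      exact step κ hκ)
    simpa using this
  have key2 : ∀ x y : E, ‖x + y‖ ^ 2 + ‖x - y‖ ^ 2 ≤ 2 * (‖x‖ ^ 2 + ‖y‖ ^ 2) := by
    intro x y
    refine le_of_forall_pos_le_add fun δ hδ => ?_
    have h := key (δ / (‖x‖ ^ 2 + ‖y‖ ^ 2 + 1)) (by positivity) x y
    have h2 : δ / (‖x‖ ^ 2 + ‖y‖ ^ 2 + 1) * (‖x‖ ^ 2 + ‖y‖ ^ 2) ≤ δ := by
      rw [div_mul_eq_mul_div, div_le_iff₀ (by positivity)]
      nlinarith [sq_nonneg ‖x‖, sq_nonneg ‖y‖]
    linarith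
  have key3 : ∀ x y : E, ‖x + y‖ * ‖x + y‖ + ‖x - y‖ * ‖x - y‖ = 2 * (‖x‖ * ‖x‖ + ‖y‖ * ‖y‖) := by
    intro x y
    have h1 := key2 x y
    have h2 := key2 (x + y) (x - y)
    have e1 : (x + y) + (x - y) = (2 : ℝ) • x := by rw [two_smul]; abel
    have e2 : (x + y) - (x - y) = (2 : ℝ) • y := by rw [two_smul]; abel
    rw [e1, e2, norm_smul, norm_smul, Real.norm_eq_abs, abs_of_pos (by norm_num : (0 : ℝ) < 2)] at h2
    nlinarith
  exact ⟨E, inferInstance, InnerProductSpace.ofNorm ℝ key3, inferInstance,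
    ⟨LinearIsometryEquiv.refl ℝ E⟩⟩
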