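import Pool.Agent.Helper59.Rotation.Trans

set_option autoImplicit false

open Helper59.Rotation

universe u

/-- **Operators commuting with their isometric conjugates.** Let `E` be a separable real Banach
space whose norm is transitive and `h` a bounded operator on `E` that commutes with `T h T⁻¹` for
every surjective linear isometry `T` of `E`. Then for coprime real polynomials `p`, `q` at least one
of the operators `p(h)`, `q(h)` is injective. -/
theorem Pool.Agent.Results.MP_cc72b1_an.CommutingConjugates.result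
    (E : Type u) [NormedAddCommGroup E] [NormedSpace ℝ E] [CompleteSpace E]
    [TopologicalSpace.SeparableSpace E]
    (htrans : ∀ x y : E, ‖x‖ = 1 → ‖y‖ = 1 → ∃ T : E ≃ₗᵢ[ℝ] E, T x = y)
    (h : E →L[ℝ] E)
    (hcomm : ∀ (T : E ≃ₗᵢ[ℝ] E) (x : E), h (T (h (T.symm x))) = T (h (T.symm (h x))))
    (p q : Polynomial ℝ) (hpq : IsCoprime p q) :
    Function.Injective (Polynomial.aeval h p) ∨ Function.Injective (Polynomial.aeval h q) := by
  by_contra hcon
  push Not at hcon
  obtain ⟨hp, hq⟩ := hcon
  have hker : ∀ f : E →L[ℝ] E, ¬ Function.Injective f → ∃ z, z ≠ 0 ∧ f z = 0 := by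
    intro f hf
    by_contra hno
    push Not at hno
    exact hf ((injective_iff_map_eq_zero f).mpr fun a ha => by
      by_contra hne
      exact hno a hne ha)
  obtain ⟨z, hz, hpz⟩ := hker _ hp
  obtain ⟨b, hb, hqb⟩ := hker _ hq
  obtain ⟨u, v, huv⟩ := hpq
  set k : E →L[ℝ] E := Polynomial.aeval h (u * p) with hk
  -- conjugation and polynomials
  let cnj : (E ≃ₗᵢ[ℝ] E) → (E →L[ℝ] E) → (E →L[ℝ] E) := fun T f =>
    (T.toContinuousLinearEquiv : E →L[ℝ] E) ∘L f ∘L
      (T.symm.toContinuousLinearEquiv : E →L[ℝ] E)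
  have hcnj : ∀ T f x, cnj T f x = T (f (T.symm x)) := fun T f x => rfl
  have hpoly : ∀ (T : E ≃ₗᵢ[ℝ] E) (r : Polynomial ℝ),
      cnj T (Polynomial.aeval h r) = Polynomial.aeval (cnj T h) r := by
    intro T r
    induction r using Polynomial.induction_on' with
    | add r s hr hs =>
      rw [map_add, map_add, ← hr, ← hs]
      ext x; simp [hcnj]
    | monomial n a =>
      rw [Polynomial.aeval_monomial, Polynomial.aeval_monomial]
      ext x
      have hpow : ∀ (n : ℕ) (x : E), T ((h ^ n) (T.symm x)) = ((cnj T h) ^ n) x := by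
        intro n
        induction n with
        | zero => intro x; simp
        | succ n ih =>
          intro x
          rw [pow_succ, pow_succ]
          simp only [mul_apply_eq_comp, hcnj]
          rw [← ih]
          simp
      rw [hcnj]
      simp only [mul_apply_eq_comp, ContinuousLinearMap.algebraMap_apply, map_smul]
      rw [hpow]
  -- two conjugates of `h` commute
  have hTS : ∀ (T S : E ≃ₗᵢ[ℝ] E), Commute (cnj T h) (cnj S h) := by
    intro T S
    ext x
    simp only [mul_apply_eq_comp, hcnj]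
    have := hcomm (S.trans T.symm) (T.symm x)
    simp only [LinearIsometryEquiv.symm_trans, LinearIsometryEquiv.symm_symm,
      LinearIsometryEquiv.trans_apply, LinearIsometryEquiv.apply_symm_apply] at this
    rw [this]
    simp
  have hcommpoly : ∀ (f g : E →L[ℝ] E), Commute f g → ∀ r : Polynomial ℝ,
      Commute (Polynomial.aeval f r) g := by
    intro f g hfg r
    induction r using Polynomial.induction_on' with
    | add r s hr hs => rw [map_add]; exact hr.add_left hs
    | monomial n a =>
      rw [Polynomial.aeval_monomial]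
      exact (show Commute (algebraMap ℝ (E →L[ℝ] E) a) g from
        Algebra.commutes a g).mul_left (hfg.pow_left n)
  have hkz : k z = 0 := by
    rw [hk, map_mul, mul_apply_eq_comp, hpz, map_zero]
  have hkb : k b = b := by
    have h1 : k = 1 - Polynomial.aeval h (v * q) := by
      rw [hk, eq_sub_iff_add_eq, ← map_add, huv, map_one]
    rw [h1, map_mul]
    simp [hqb]
  refine false_of_commuting {g | ∃ T, g = cnj T k} ‖k‖ ?_ ?_ ?_
  · rintro g ⟨T, rfl⟩ x
    rw [hcnj, T.norm_map]
    refine (k.le_opNorm _).trans ?_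
    rw [T.symm.norm_map]
  · rintro g ⟨T, rfl⟩ g' ⟨S, rfl⟩ x
    have h1 : Commute (cnj T k) (cnj S k) := by
      rw [hk, hpoly, hpoly]
      exact hcommpoly _ _ (hcommpoly _ _ (hTS T S) _).symm _ |>.symm
    exact congrArg (fun f : E →L[ℝ] E => f x) h1
  · intro x
    by_cases hx : x = 0
    · exact ⟨cnj (LinearIsometryEquiv.refl ℝ E) k, ⟨_, rfl⟩, by rw [hx, map_zero], b, hb, hkb⟩
    · have hxn : ‖x‖ ≠ 0 := norm_ne_zero_iff.mpr hx
      have hzn : ‖z‖ ≠ 0 := norm_ne_zero_iff.mpr hz
      obtain ⟨T, hT⟩ := htrans (‖z‖⁻¹ • z) (‖x‖⁻¹ • x)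
        (by rw [norm_smul, norm_inv, norm_norm, inv_mul_cancel₀ hzn])
        (by rw [norm_smul, norm_inv, norm_norm, inv_mul_cancel₀ hxn])
      have hTx : T.symm x = ‖x‖ • ‖z‖⁻¹ • z := by
        have h1 : x = ‖x‖ • T (‖z‖⁻¹ • z) := by
          rw [hT, smul_smul, mul_inv_cancel₀ hxn, one_smul]
        rw [← map_smul] at h1
        have h2 := congrArg T.symm h1
        rwa [T.symm_apply_apply] at h2
      refine ⟨cnj T k, ⟨T, rfl⟩, ?_, T b, ?_, ?_⟩
      · rw [hcnj, hTx]; simp [hkz]
      · exact (map_ne_zero_iff T T.injective).mpr hb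
      · rw [hcnj, T.symm_apply_apply, hkb]
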