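import Pool.Agent.Helper61.HP.Main
import Pool.Agent.Helper61.HP.Stmt

/-!
# Hermitian projections and the rotation problem
-/

set_option autoImplicit false

universe u

open Pool.Agent.Helper61.HP

/-- **One hermitian projection is enough.** Let `E` be a separable complex Banach space without
subspaces isomorphic to the (real) sequence space `ℓ¹` whose complex-linear surjective isometries
act transitively on the unit sphere. If `E` has a hermitian projection `P` different from `0` and
`1`, i.e. a linear idempotent with `‖u • P x + (x - P x)‖ = ‖x‖` for all `x` and all complex numbers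
`u` of modulus one (the rank and the corank of `P` may be finite or infinite), then `E` is linearly
isometric to a complex Hilbert space. -/
theorem Pool.Agent.Results.MP_cc72b1_an.HermitianProjection.result
    (E : Type u) [NormedAddCommGroup E] [NormedSpace ℂ E] [CompleteSpace E]
    [TopologicalSpace.SeparableSpace E] (htrans : TransitiveNorm E) (hl1 : ¬ HasEllOne E)
    (P : E →ₗ[ℂ] E) (hP : HermitianProjection P) (hP0 : P ≠ 0) (hP1 : P ≠ LinearMap.id) :
    IsometricToHilbert E := by
  have hp := Pool.Agent.Helper61.HP.main htrans hl1 P hP.1 hP0 hP1 hP.2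
  have hp' : ∀ x y : E, ‖x + y‖ * ‖x + y‖ + ‖x - y‖ * ‖x - y‖ = 2 * (‖x‖ * ‖x‖ + ‖y‖ * ‖y‖) := by
    intro x y
    have := hp x y
    simpa only [sq] using this
  let _ : InnerProductSpace ℂ E := InnerProductSpace.ofNorm ℂ hp'
  exact ⟨E, inferInstance, inferInstance, inferInstance, ⟨LinearIsometryEquiv.refl ℂ E⟩⟩
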