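import Pool.Agent.Helper53.BM.Contact

set_option autoImplicit false

open Filter Topology Asymptotics Pool.Agent.Helper53.BM

universe u

namespace Pool.Agent.Results.MP_cc72b1_an.HessianDistance

/-- `E` lies within `K` of a Hilbert space: there are a real Hilbert space `H` and an isomorphism
`T` of `E` onto `H` with `‖x‖ ^ 2 ≤ ‖T x‖ ^ 2 ≤ K * ‖x‖ ^ 2`. For `K = 1` this says that `E` is
linearly isometric to a Hilbert space. -/
def HilbertWithin (E : Type u) [NormedAddCommGroup E] [NormedSpace ℝ E] (K : ℝ) : Prop :=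
  ∃ (H : Type u) (_ : NormedAddCommGroup H) (_ : InnerProductSpace ℝ H) (_ : CompleteSpace H)
    (T : E ≃L[ℝ] H), ∀ x, ‖x‖ ^ 2 ≤ ‖T x‖ ^ 2 ∧ ‖T x‖ ^ 2 ≤ K * ‖x‖ ^ 2

section
variable {E : Type u} [NormedAddCommGroup E] [NormedSpace ℝ E] [CompleteSpace E]

omit [CompleteSpace E] in
lemma good_of_lower (hinf : ¬ FiniteDimensional ℝ E)
    {x₀ : E} (hx₀ : ‖x₀‖ = 1) {f : E →L[ℝ] ℝ} {g : E →L[ℝ] E →L[ℝ] ℝ} (hT : UniformTaylor f g)
    {K : ℝ} (hK : 0 < K) (Z : Submodule ℝ E) (hZ : IsClosed (Z : Set E))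
    (hfin : FiniteDimensional ℝ (E ⧸ Z)) (hZ' : ∀ w ∈ Z, ‖w‖ ^ 2 ≤ K * g w w) :
    ∀ (S : Finset E) (ε : ℝ), 0 < ε →
      ∃ U : E ≃ₗᵢ[ℝ] E, ∀ z ∈ S, (1 : ℝ) * g (U z) (U z) ≤ 1 * ‖z‖ ^ 2 + ε := by
  classical
  obtain ⟨μ, hμ1, hμ2⟩ := exists_ess_sup hinf (fun w => (1 : ℝ) * g w w) (C := ‖g‖)
    (fun w => by
      have := g.le_opNorm₂ w w
      rw [one_mul, sq, ← mul_assoc]
      simpa using this)
    (fun c w => by simp only [map_smul, smul_apply, smul_eq_mul]; ring)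
  obtain ⟨n, ξ, a, hP, -, -⟩ := exists_functionals Z hZ hfin
  have hμ : 0 < μ := by
    obtain ⟨Φ, hΦ⟩ := hμ1 (1 / (2 * K)) (by positivity)
    obtain ⟨v, hv, hv'⟩ := exists_ker_vector hinf (Φ ∪ Finset.univ.image ξ) zero_le_one
    have hvZ : v ∈ Z := by
      have h1 := hP v
      have h2 : ∀ j, ξ j v = 0 := fun j => hv' _ (Finset.mem_union_right _
        (Finset.mem_image_of_mem _ (Finset.mem_univ j)))
      simpa [h2] using h1
    have h3 := hΦ v (fun φ hφ => hv' φ (Finset.mem_union_left _ hφ))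
    have h4 := hZ' v hvZ
    rw [hv, one_pow] at h3 h4
    have h5 : K * (1 * g v v) ≤ K * ((μ + 1 / (2 * K)) * 1) := by gcongr
    have h6 : K * ((μ + 1 / (2 * K)) * 1) = K * μ + 1 / 2 := by field_simp
    rw [h6] at h5
    have h7 : 0 < K * μ := by linarith
    by_contra hcon
    push Not at hcon
    nlinarith
  exact fun S ε hε => exists_good_isometry hT hx₀ 1 (by simp) (by simpa using hμ) hμ1 hμ2 S hε

lemma reflexive_of_lower (hinf : ¬ FiniteDimensional ℝ E)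
    {x₀ : E} (hx₀ : ‖x₀‖ = 1) {f : E →L[ℝ] ℝ} {g : E →L[ℝ] E →L[ℝ] ℝ}
    (hg : ∀ x y, g x y = g y x) (hT : UniformTaylor f g)
    {K : ℝ} (hK : 0 < K) (Z : Submodule ℝ E) (hZ : IsClosed (Z : Set E))
    (hfin : FiniteDimensional ℝ (E ⧸ Z)) (hZ' : ∀ w ∈ Z, ‖w‖ ^ 2 ≤ K * g w w) :
    ∀ (ζ : StrongDual ℝ (StrongDual ℝ E)) (σ : ℝ), 0 < σ →
      ∃ y₀ : E, ∀ φ : StrongDual ℝ E, |ζ φ - φ y₀| ≤ σ * ‖φ‖ := by
  obtain ⟨𝒰, V, h, hh, hs, -⟩ := first_limit g hg 1 (good_of_lower hinf hx₀ hT hK Z hZ hfin hZ')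
  obtain ⟨n, ξ, C, hC, hξ⟩ := rough_lower g hK Z hZ hfin hZ'
  choose ξ' hξ' using fun j => exists_limit_functional 𝒰 V (ξ j)
  have hlow : ∀ w, ‖w‖ ^ 2 ≤ 4 * K * h w w + C * ∑ j, ξ' j w ^ 2 := by
    intro w
    have h1 : Tendsto (fun i => 4 * K * g (V i w) (V i w) + C * ∑ j, ξ j (V i w) ^ 2) 𝒰
        (𝓝 (4 * K * h w w + C * ∑ j, ξ' j w ^ 2)) := by
      refine ((hh w w).const_mul (4 * K)).add (Tendsto.const_mul C ?_)
      exact tendsto_finsetSum _ fun j _ => (hξ' j w).pow 2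
    refine ge_of_tendsto h1 (Eventually.of_forall fun i => ?_)
    have := hξ (V i w)
    rwa [LinearIsometryEquiv.norm_map] at this
  set H₀ : E →L[ℝ] E →L[ℝ] ℝ := (4 * K) • h + C • ∑ j, (ξ' j).smulRight (ξ' j) with hH₀
  have hH₀app : ∀ x y, H₀ x y = 4 * K * h x y + C * ∑ j, ξ' j x * ξ' j y := by
    intro x y
    simp [hH₀]
  obtain ⟨H, i1, i2, i3, T, -⟩ := exists_hilbert H₀ (fun x y => by
    rw [hH₀app, hH₀app, hs x y]
    simp only [mul_comm]) one_pos (fun x => by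
    rw [hH₀app, one_mul]
    have := hlow x
    simpa only [sq] using this)
  intro ζ σ hσ
  obtain ⟨y₀, hy₀⟩ := bidual_exact T ζ
  refine ⟨y₀, fun φ => ?_⟩
  rw [hy₀ φ, sub_self, abs_zero]
  positivity

end

/-- The two halves of the theorem below. -/
lemma two_halves (E : Type u) [NormedAddCommGroup E] [NormedSpace ℝ E] [CompleteSpace E]
    (hinf : ¬ FiniteDimensional ℝ E)
    (htrans : ∀ x y : E, ‖x‖ = 1 → ‖y‖ = 1 → ∀ ε : ℝ, 0 < ε →
      ∃ T : E ≃ₗᵢ[ℝ] E, ‖T x - y‖ < ε)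
    (x₀ : E) (hx₀ : ‖x₀‖ = 1) (f : E →L[ℝ] ℝ) (g : E →L[ℝ] E →L[ℝ] ℝ)
    (hT : (fun h : E => ‖x₀ + h‖ ^ 2 - ‖x₀‖ ^ 2 - 2 * f h - g h h) =o[𝓝 0]
      (fun h : E => ‖h‖ ^ 2)) (K : ℝ) (hK : 0 < K) :
    List.TFAE [HilbertWithin E K,
      ∀ w, ‖w‖ ^ 2 ≤ K * g w w,
      ∀ ε : ℝ, 0 < ε → ∃ Z : Submodule ℝ E, IsClosed (Z : Set E) ∧ FiniteDimensional ℝ (E ⧸ Z) ∧
        ∀ w ∈ Z, ‖w‖ ^ 2 ≤ (K + ε) * g w w] ∧
    ((∃ K' : ℝ, HilbertWithin E K') → List.TFAE [HilbertWithin E K,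
      ∀ w, g w w ≤ K * ‖w‖ ^ 2,
      ∀ ε : ℝ, 0 < ε → ∃ Z : Submodule ℝ E, IsClosed (Z : Set E) ∧ FiniteDimensional ℝ (E ⧸ Z) ∧
        ∀ w ∈ Z, g w w ≤ (K + ε) * ‖w‖ ^ 2]) := by
  classical
  -- symmetrise the form
  set gs : E →L[ℝ] E →L[ℝ] ℝ := (1 / 2 : ℝ) • (g + g.flip) with hgs
  have hgsapp : ∀ x y, gs x y = 1 / 2 * (g x y + g y x) := by
    intro x y
    simp [hgs]
    ring
  have hgsd : ∀ w, gs w w = g w w := by
    intro w
    rw [hgsapp]
    ring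
  have hgsymm : ∀ x y, gs x y = gs y x := by
    intro x y
    rw [hgsapp, hgsapp, add_comm]
  have hTs : UniformTaylor f gs := uniformTaylor htrans hx₀ f gs (by
    simpa only [hgsd] using hT)
  simp only [← hgsd]
  have htop : IsClosed ((⊤ : Submodule ℝ E) : Set E) := by
    rw [Submodule.top_coe]
    exact isClosed_univ
  have hfintop : FiniteDimensional ℝ (E ⧸ (⊤ : Submodule ℝ E)) := by infer_instance
  refine ⟨?_, ?_⟩
  · tfae_have 1 → 2 := by
      rintro ⟨H, i1, i2, i3, T, hTx⟩ w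
      exact contact_lower hTs T (fun x => (hTx x).1) (fun x => (hTx x).2) w
    tfae_have 2 → 3 := by
      intro h ε hε
      refine ⟨⊤, htop, hfintop, fun w _ => ?_⟩
      have h1 := h w
      have h2 : 0 ≤ gs w w := by
        have : 0 ≤ K * gs w w := le_trans (by positivity) h1
        exact nonneg_of_mul_nonneg_right this hK
      nlinarith
    tfae_have 3 → 1 := by
      intro h
      obtain ⟨Z, hZ, hfin, hZ'⟩ := h 1 one_pos
      have hgood := good_of_lower hinf hx₀ hTs (by linarith : 0 < K + 1) Z hZ hfin hZ'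
      have hbid := reflexive_of_lower hinf hx₀ hgsymm hTs (by linarith : 0 < K + 1) Z hZ hfin hZ'
      obtain ⟨h', hsymm, hup, hlow⟩ := final_form hinf htrans hbid gs hgsymm 1 hgood
        (α := 1) (β := K) (weak_nbhd gs fun ε hε => by
          obtain ⟨Z, hZ, hfin, hZ'⟩ := h (ε / (‖gs‖ + 1)) (by positivity)
          refine ⟨Z, hZ, hfin, fun w hw => ?_⟩
          have h1 := hZ' w hw
          have h2 : gs w w ≤ ‖gs‖ * ‖w‖ * ‖w‖ :=
            (le_abs_self _).trans (by simpa using gs.le_opNorm₂ w w)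
          have h3 : ε / (‖gs‖ + 1) * gs w w ≤ ε / (‖gs‖ + 1) * ((‖gs‖ + 1) * ‖w‖ ^ 2) := by
            gcongr
            nlinarith [sq_nonneg ‖w‖]
          have h4 : ε / (‖gs‖ + 1) * ((‖gs‖ + 1) * ‖w‖ ^ 2) = ε * ‖w‖ ^ 2 := by field_simp
          rw [h4] at h3
          linarith)
      obtain ⟨H, i1, i2, i3, T, hTx⟩ := exists_hilbert (K • h')
        (fun x y => by simp [hsymm x y]) one_pos (fun x => by simpa using hlow x)
      refine ⟨H, i1, i2, i3, T, fun x => ?_⟩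
      rw [hTx]
      have h1 := hlow x
      have h2 := hup x
      simp only [smul_apply, smul_eq_mul]
      rw [one_mul, one_mul] at h2
      rw [one_mul] at h1
      exact ⟨h1, by gcongr⟩
    tfae_finish
  · rintro ⟨K', H', j1, j2, j3, T', hT'⟩
    tfae_have 1 → 2 := by
      rintro ⟨H, i1, i2, i3, T, hTx⟩ w
      exact contact_upper hTs T (fun x => (hTx x).1) (fun x => (hTx x).2) w
    tfae_have 2 → 3 := by
      intro h ε hε
      refine ⟨⊤, htop, hfintop, fun w _ => ?_⟩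
      have h1 := h w
      nlinarith [sq_nonneg ‖w‖]
    tfae_have 3 → 1 := by
      intro h
      have hlow' := fun w => contact_lower hTs T' (fun x => (hT' x).1) (fun x => (hT' x).2) w
      have hK' : 0 < K' := by
        have h1 := hlow' x₀
        have h2 := (hT' x₀).1
        have h3 := (hT' x₀).2
        rw [hx₀, one_pow] at h2 h3
        linarith
      obtain ⟨μ, hμ1, hμ2⟩ := exists_ess_sup hinf (fun w => (-1 : ℝ) * gs w w) (C := ‖gs‖)
        (fun w => by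
          have := gs.le_opNorm₂ w w
          rw [abs_mul, abs_neg, abs_one, one_mul, sq, ← mul_assoc]
          simpa using this)
        (fun c w => by simp only [map_smul, smul_apply, smul_eq_mul]; ring)
      have hμ : μ < 0 := by
        obtain ⟨v, hv, -, hv'⟩ := hμ2 (1 / (2 * K')) (by positivity) ∅
        have h1 := hlow' v
        rw [hv, one_pow] at h1
        have h2 : K' * (μ - 1 / (2 * K')) ≤ K' * (-1 * gs v v) := by gcongr
        have h3 : K' * (μ - 1 / (2 * K')) = K' * μ - 1 / 2 := by field_simp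
        rw [h3] at h2
        have h4 : K' * μ < 0 := by linarith
        exact neg_of_mul_neg_right h4 hK'.le
      have hgood := fun (S : Finset E) (ε : ℝ) (hε : 0 < ε) =>
        exists_good_isometry hTs hx₀ (-1) (by simp) (by linarith) hμ1 hμ2 S hε
      obtain ⟨h', hsymm, hup, hlow⟩ := final_form hinf htrans (fun ζ σ hσ => by
        obtain ⟨y₀, hy₀⟩ := bidual_exact T' ζ
        refine ⟨y₀, fun φ => ?_⟩
        rw [hy₀ φ, sub_self, abs_zero]
        positivity) gs hgsymm (-1) hgood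
        (α := -K) (β := -1) (weak_nbhd gs fun ε hε => by
          obtain ⟨Z, hZ, hfin, hZ'⟩ := h ε hε
          refine ⟨Z, hZ, hfin, fun w hw => ?_⟩
          have h1 := hZ' w hw
          linarith)
      have h1 : ∀ x, ‖x‖ ^ 2 ≤ h' x x := fun x => by
        have := hup x
        linarith
      obtain ⟨H, i1, i2, i3, T, hTx⟩ := exists_hilbert h' hsymm one_pos
        (fun x => by simpa using h1 x)
      refine ⟨H, i1, i2, i3, T, fun x => ?_⟩
      rw [hTx]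
      have h2 := hlow x
      exact ⟨h1 x, by linarith⟩
    tfae_finish

/-- **The Hessian of an almost transitive norm determines its distance to Hilbert space.**
Let `E` be an infinite dimensional real Banach space with almost transitive norm, and suppose that
the square of the norm has a second order Taylor expansion
`‖x₀ + h‖ ^ 2 = 1 + 2 f(h) + g(h, h) + o(‖h‖ ^ 2)` at one point `x₀` of the unit sphere.
Then the following are equivalent:
(1) `E` lies within `K` of a Hilbert space;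
(2) `‖w‖ ^ 2 ≤ K g(w, w)` for all `w`;
(3) (2) holds asymptotically, on subspaces of finite codimension;
(4) `E` is isomorphic to a Hilbert space and `g(w, w) ≤ K ‖w‖ ^ 2` for all `w`;
(5) `E` is isomorphic to a Hilbert space and the inequality of (4) holds asymptotically, on
subspaces of finite codimension. -/
theorem result (E : Type u) [NormedAddCommGroup E] [NormedSpace ℝ E] [CompleteSpace E]
    (hinf : ¬ FiniteDimensional ℝ E)
    (htrans : ∀ x y : E, ‖x‖ = 1 → ‖y‖ = 1 → ∀ ε : ℝ, 0 < ε →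
      ∃ T : E ≃ₗᵢ[ℝ] E, ‖T x - y‖ < ε)
    (x₀ : E) (hx₀ : ‖x₀‖ = 1) (f : E →L[ℝ] ℝ) (g : E →L[ℝ] E →L[ℝ] ℝ)
    (hT : (fun h : E => ‖x₀ + h‖ ^ 2 - ‖x₀‖ ^ 2 - 2 * f h - g h h) =o[𝓝 0]
      (fun h : E => ‖h‖ ^ 2)) (K : ℝ) (hK : 0 < K) :
    List.TFAE [HilbertWithin E K,
      ∀ w, ‖w‖ ^ 2 ≤ K * g w w,
      ∀ ε : ℝ, 0 < ε → ∃ Z : Submodule ℝ E, IsClosed (Z : Set E) ∧ FiniteDimensional ℝ (E ⧸ Z) ∧
        ∀ w ∈ Z, ‖w‖ ^ 2 ≤ (K + ε) * g w w,
      (∃ K' : ℝ, HilbertWithin E K') ∧ ∀ w, g w w ≤ K * ‖w‖ ^ 2,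
      (∃ K' : ℝ, HilbertWithin E K') ∧ ∀ ε : ℝ, 0 < ε → ∃ Z : Submodule ℝ E,
        IsClosed (Z : Set E) ∧ FiniteDimensional ℝ (E ⧸ Z) ∧
          ∀ w ∈ Z, g w w ≤ (K + ε) * ‖w‖ ^ 2] := by
  obtain ⟨h1, h2⟩ := two_halves E hinf htrans x₀ hx₀ f g hT K hK
  tfae_have 1 ↔ 2 := h1.out 0 1
  tfae_have 1 ↔ 3 := h1.out 0 2
  tfae_have 1 → 4 := fun h => ⟨⟨K, h⟩, ((h2 ⟨K, h⟩).out 0 1).mp h⟩
  tfae_have 4 → 5 := fun h => ⟨h.1, ((h2 h.1).out 1 2).mp h.2⟩
  tfae_have 5 → 1 := fun h => ((h2 h.1).out 0 2).mpr h.2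
  tfae_finish

end Pool.Agent.Results.MP_cc72b1_an.HessianDistance
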