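import Pool.Agent.Helper47.Rot.Final

set_option autoImplicit false

open Pool.Agent.Helper47.Rot

universe u

/-- **A Hölder local section of the orbit map at one point forces a Hilbert space.**
Let `E` be a real Banach space and `x₀` a unit vector. Assume that every unit vector `y` close to
`x₀` can be approximated by images `T x₀` of `x₀` under surjective linear isometries `T` with
`‖T - id‖ ≤ C ‖y - x₀‖ ^ s` in operator norm, where `C` and the exponent `s > 0` are arbitrary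
constants. Then `E` is linearly isometric to a real Hilbert space. No separability, no condition at
the other points of the sphere and no exact solution of `T x₀ = y` is assumed. -/
theorem Pool.Agent.Results.MP_cc72b1_an.HolderMicroTransitive.result
    (E : Type u) [NormedAddCommGroup E] [NormedSpace ℝ E] [CompleteSpace E]
    (x₀ : E) (hx₀ : ‖x₀‖ = 1) (C s δ : ℝ) (hs : 0 < s) (hδ : 0 < δ)
    (h : ∀ y : E, ‖y‖ = 1 → ‖y - x₀‖ < δ → ∀ η : ℝ, 0 < η →
      ∃ T : E ≃ₗᵢ[ℝ] E, ‖T x₀ - y‖ < η ∧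
        ‖(T.toContinuousLinearEquiv : E →L[ℝ] E) - ContinuousLinearMap.id ℝ E‖
          ≤ C * ‖y - x₀‖ ^ s) :
    ∃ (H : Type u) (_ : NormedAddCommGroup H) (_ : InnerProductSpace ℝ H)
      (_ : CompleteSpace H), Nonempty (E ≃ₗᵢ[ℝ] H) := by
  have h1 : ∀ y : E, ‖y‖ = 1 → ‖y - x₀‖ < δ → ∀ η : ℝ, 0 < η → ∃ T : E ≃ₗᵢ[ℝ] E,
      ‖T x₀ - y‖ < η ∧ ∀ z, ‖T z - z‖ ≤ |C| * ‖y - x₀‖ ^ s * ‖z‖ := by
    intro y hy hyx η hη
    obtain ⟨T, hT, hTn⟩ := h y hy hyx η hη
    refine ⟨T, hT, fun z => ?_⟩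
    have h2 := ((T.toContinuousLinearEquiv : E →L[ℝ] E)
      - ContinuousLinearMap.id ℝ E).le_opNorm z
    calc ‖T z - z‖ ≤ ‖(T.toContinuousLinearEquiv : E →L[ℝ] E)
          - ContinuousLinearMap.id ℝ E‖ * ‖z‖ := h2
      _ ≤ (C * ‖y - x₀‖ ^ s) * ‖z‖ := by gcongr
      _ ≤ |C| * ‖y - x₀‖ ^ s * ‖z‖ := by
          gcongr
          exact le_abs_self C
  obtain ⟨C', hC'⟩ := holder_of_local hx₀ hs hδ
    (exact_of_almost (abs_nonneg C) hs hδ h1)
  let inst : InnerProductSpace ℝ E :=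
    InnerProductSpace.ofNorm ℝ (parallelogram_of_holder hs hC')
  exact ⟨E, inferInstance, inst, inferInstance, ⟨LinearIsometryEquiv.refl ℝ E⟩⟩
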