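import Pool.Agent.Helper59.Rotation.Main

set_option autoImplicit false

open Helper59.Rotation

universe u

/-- **`L^p`-summands and the rotation problem.** Let `E` be a separable real Banach space whose
norm is transitive. If `E` has an `L^p`-projection `P`, `1 ≤ p ≤ ∞`, different from `0` and `1` (a
linear idempotent with `‖x‖ ^ p = ‖P x‖ ^ p + ‖x - P x‖ ^ p` for all `x`, respectively
`‖x‖ = max ‖P x‖ ‖x - P x‖` if `p = ∞`), then `E` is linearly isometric to a Hilbert space. -/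
theorem Pool.Agent.Results.MP_cc72b1_an.LpSummand.result
    (E : Type u) [NormedAddCommGroup E] [NormedSpace ℝ E] [CompleteSpace E]
    [TopologicalSpace.SeparableSpace E]
    (htrans : ∀ x y : E, ‖x‖ = 1 → ‖y‖ = 1 → ∃ T : E ≃ₗᵢ[ℝ] E, T x = y)
    (P : E →ₗ[ℝ] E) (hP : ∀ x, P (P x) = P x) (hP0 : P ≠ 0) (hP1 : P ≠ LinearMap.id)
    (hPp : (∃ p : ℝ, 1 ≤ p ∧ ∀ x, ‖x‖ ^ p = ‖P x‖ ^ p + ‖x - P x‖ ^ p) ∨
      (∀ x, ‖x‖ = max ‖P x‖ ‖x - P x‖)) :
    ∃ (H : Type u) (instH : NormedAddCommGroup H) (instI : InnerProductSpace ℝ H)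
      (instC : CompleteSpace H), Nonempty (E ≃ₗᵢ[ℝ] H) := by
  have h0 : ∃ x, P x ≠ 0 := by
    by_contra h
    push Not at h
    exact hP0 (LinearMap.ext h)
  have h1 : ∃ x, P x ≠ x := by
    by_contra h
    push Not at h
    exact hP1 (LinearMap.ext h)
  have key := exists_noncommuting_conj htrans P hP h0 h1
  rcases hPp with ⟨p, hp, hPp⟩ | hm
  · have hp0 : 0 < p := by linarith
    have hL : IsLpProj p P := ⟨hP, hPp⟩
    have hroot : ∀ a b : ℝ, 0 ≤ a → 0 ≤ b → a ^ p ≤ b ^ p → a ≤ b := fun a b ha hb h =>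
      (Real.rpow_le_rpow_iff ha hb hp0).mp h
    have hc : ∀ x, ‖P x‖ ≤ ‖x‖ := fun x => hroot _ _ (norm_nonneg _) (norm_nonneg _) (by
      rw [hPp x]
      have : 0 ≤ ‖x - P x‖ ^ p := Real.rpow_nonneg (norm_nonneg _) _
      linarith)
    have hc' : ∀ x, ‖x - P x‖ ≤ ‖x‖ := fun x => hroot _ _ (norm_nonneg _) (norm_nonneg _) (by
      rw [hPp x]
      have : 0 ≤ ‖P x‖ ^ p := Real.rpow_nonneg (norm_nonneg _) _
      linarith)
    obtain ⟨T, x, hx⟩ := key hc hc'
    set Q : E →ₗ[ℝ] E := T.toLinearEquiv.toLinearMap ∘ₗ P ∘ₗ T.symm.toLinearEquiv.toLinearMap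
      with hQ
    have hQapp : ∀ y, Q y = T (P (T.symm y)) := fun y => rfl
    have hQL : IsLpProj p Q := by
      refine ⟨fun y => ?_, fun y => ?_⟩
      · rw [hQapp, hQapp]; simp [hP]
      · have e1 : y - Q y = T (T.symm y - P (T.symm y)) := by rw [hQapp]; simp
        rw [e1, hQapp, T.norm_map, T.norm_map, ← hPp, T.symm.norm_map]
    have hne : P (Q x) ≠ Q (P x) := by rw [hQapp, hQapp]; exact hx
    have hp2 : p = 2 := by
      by_contra hp2
      exact hne (commute_of_ne_two hp0 hp2 hL hQL x)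
    subst hp2
    obtain ⟨r, hr0, hr⟩ := exists_mem_parSub hL hQL ⟨x, hne⟩
    apply hilbert_of_par
    intro s
    by_cases hs : s = 0
    · have := (parSub E).zero_mem 1
      rw [one_smul] at this
      rw [hs]; exact this
    have hrn : ‖r‖ ≠ 0 := norm_ne_zero_iff.mpr hr0
    have hsn : ‖s‖ ≠ 0 := norm_ne_zero_iff.mpr hs
    obtain ⟨S, hS⟩ := htrans (‖r‖⁻¹ • r) (‖s‖⁻¹ • s)
      (by rw [norm_smul, norm_inv, norm_norm, inv_mul_cancel₀ hrn])
      (by rw [norm_smul, norm_inv, norm_norm, inv_mul_cancel₀ hsn])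
    have h2 : s ∈ parSub E := by
      have h3 := (parSub E).smul_mem ‖s‖ (map_mem_parSub S ((parSub E).smul_mem ‖r‖⁻¹ hr))
      rwa [hS, smul_smul, mul_inv_cancel₀ hsn, one_smul] at h3
    have := h2 1
    rwa [one_smul] at this
  · have hc : ∀ x, ‖P x‖ ≤ ‖x‖ := fun x => (le_max_left _ _).trans (hm x).ge
    have hc' : ∀ x, ‖x - P x‖ ≤ ‖x‖ := fun x => (le_max_right _ _).trans (hm x).ge
    obtain ⟨T, x, hx⟩ := key hc hc'
    set Q : E →ₗ[ℝ] E := T.toLinearEquiv.toLinearMap ∘ₗ P ∘ₗ T.symm.toLinearEquiv.toLinearMap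
      with hQ
    have hQapp : ∀ y, Q y = T (P (T.symm y)) := fun y => rfl
    exfalso
    apply hx
    have := commute_of_max (Q := Q) hP hm (fun y => by rw [hQapp, hQapp]; simp [hP]) (fun y => by
      have e1 : y - Q y = T (T.symm y - P (T.symm y)) := by rw [hQapp]; simp
      rw [e1, hQapp, T.norm_map, T.norm_map, ← hm, T.symm.norm_map]) x
    rw [hQapp, hQapp] at this
    exact this
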