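import Pool.Agent.Helper53.BM.Micro.Power

set_option autoImplicit false

open Filter Topology Pool.Agent.Helper53.BM

universe u

/-- **Micro-transitive Banach spaces are nearly Hilbertian.** Let `E` be a real Banach space of
dimension at least two whose isometry group, with the topology of the operator norm, acts
micro-transitively on the unit sphere: for every unit vector `x` and every `ε > 0`, all unit vectors
`y` close to `x` are of the form `y = T x` with a surjective linear isometry `T` with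
`‖T - id‖ ≤ ε`. Then for every `θ` in `(0, 1)` the norm is uniformly smooth of power type `2 - θ`
and uniformly convex of power type `2 + θ`. -/
theorem Pool.Agent.Results.MP_cc72b1_an.MicroTransitive.result
    (E : Type u) [NormedAddCommGroup E] [NormedSpace ℝ E] [CompleteSpace E]
    (hdim : 1 < Module.rank ℝ E)
    (hmicro : ∀ x : E, ‖x‖ = 1 → ∀ ε : ℝ, 0 < ε → ∃ δ : ℝ, 0 < δ ∧ ∀ y : E, ‖y‖ = 1 →
      ‖x - y‖ < δ → ∃ T : E ≃ₗᵢ[ℝ] E, T x = y ∧
        ‖(T.toContinuousLinearEquiv : E →L[ℝ] E) - ContinuousLinearMap.id ℝ E‖ ≤ ε)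
    (θ : ℝ) (hθ : 0 < θ) (hθ1 : θ < 1) :
    (∃ C : ℝ, 0 < C ∧ ∀ x z : E, ‖x‖ = 1 → ‖x + z‖ + ‖x - z‖ ≤ 2 + C * ‖z‖ ^ (2 - θ)) ∧
    (∃ c : ℝ, 0 < c ∧ ∀ x y : E, ‖x‖ = 1 → ‖y‖ = 1 →
      ‖x + y‖ ≤ 2 - c * ‖x - y‖ ^ (2 + θ)) := by
  obtain ⟨hnt, htr, hmt⟩ := transitive_of_micro hdim (fun x hx ε hε => by
    obtain ⟨δ, hδ, h⟩ := hmicro x hx ε hε
    refine ⟨δ, hδ, fun y hy hxy => ?_⟩
    obtain ⟨T, hT, hTn⟩ := h y hy hxy
    refine ⟨T, hT, fun z => ?_⟩
    have h1 := ((T.toContinuousLinearEquiv : E →L[ℝ] E) - ContinuousLinearMap.id ℝ E).le_opNorm z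
    calc ‖T z - z‖ ≤ ‖(T.toContinuousLinearEquiv : E →L[ℝ] E) -
          ContinuousLinearMap.id ℝ E‖ * ‖z‖ := h1
      _ ≤ ε * ‖z‖ := by gcongr)
  have hrefl := reflexive_of_dual_uc (dual_uc hmt hnt)
  refine ⟨?_, convex_power hmt hnt htr hrefl hθ⟩
  obtain ⟨C, hC, h⟩ := smooth_power hmt (α := 1 - θ) (by linarith) (by linarith)
  refine ⟨C, hC, fun x z hx => ?_⟩
  have := h x z hx
  rwa [show 1 + (1 - θ) = 2 - θ by ring] at this
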