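import Pool.Agent.Helper59.Rotation.Quad

set_option autoImplicit false

open Helper59.Rotation

universe u

/-- **Non-commuting `L²`-projections and the rotation problem.** Let `E` be a real Banach space
such that no closed subspace of `E` except `0` and `E` is invariant under all surjective linear
isometries of `E`. If there are two `L²`-projections `P`, `Q` of `E` (linear idempotents with
`‖x‖² = ‖P x‖² + ‖x - P x‖²` for all `x`) that do not commute, then `E` is linearly isometric to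
a Hilbert space. -/
theorem Pool.Agent.Results.MP_cc72b1_an.NoncommutingL2.result
    (E : Type u) [NormedAddCommGroup E] [NormedSpace ℝ E] [CompleteSpace E]
    (hirr : ∀ F : Submodule ℝ E, IsClosed (F : Set E) →
      (∀ T : E ≃ₗᵢ[ℝ] E, ∀ x ∈ F, T x ∈ F) → F = ⊥ ∨ F = ⊤)
    (P Q : E →ₗ[ℝ] E)
    (hP : ∀ x, P (P x) = P x) (hP2 : ∀ x, ‖x‖ ^ 2 = ‖P x‖ ^ 2 + ‖x - P x‖ ^ 2)
    (hQ : ∀ x, Q (Q x) = Q x) (hQ2 : ∀ x, ‖x‖ ^ 2 = ‖Q x‖ ^ 2 + ‖x - Q x‖ ^ 2)
    (hPQ : ∃ x, P (Q x) ≠ Q (P x)) :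
    ∃ (H : Type u) (instH : NormedAddCommGroup H) (instI : InnerProductSpace ℝ H)
      (instC : CompleteSpace H), Nonempty (E ≃ₗᵢ[ℝ] H) := by
  have hP' : IsLpProj 2 P := ⟨hP, fun x => by simp only [Real.rpow_two]; exact hP2 x⟩
  have hQ' : IsLpProj 2 Q := ⟨hQ, fun x => by simp only [Real.rpow_two]; exact hQ2 x⟩
  obtain ⟨r, hr0, hr⟩ := exists_mem_parSub hP' hQ' hPQ
  apply hilbert_of_par
  rcases hirr (parSub E) isClosed_parSub (fun T x hx => map_mem_parSub T hx) with h | h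
  · exact absurd ((Submodule.mem_bot ℝ).mp (h ▸ hr)) hr0
  · intro s
    have : s ∈ parSub E := h ▸ Submodule.mem_top
    have := this 1
    rwa [one_smul] at this
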