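import Pool.Agent.Helper53.BM.Lip.Final

set_option autoImplicit false

universe u

open Pool.Agent.Helper53.BM.Lip

/-- Let `E` be a real Banach space such that all unit vectors `x`, `y` are (almost) moved to each
other by isometries `T` with `‖T (T x) - 2 T x + x‖ ≤ C ‖x - y‖ ^ 2`. Then `E` is linearly
isometric to a Hilbert space. -/
theorem Pool.Agent.Results.MP_cc72b1_an.OneOrbit.result
    (E : Type u) [NormedAddCommGroup E] [NormedSpace ℝ E] [CompleteSpace E] (C : ℝ)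
    (h : ∀ x y : E, ‖x‖ = 1 → ‖y‖ = 1 → ∀ ε : ℝ, 0 < ε → ∃ T : E ≃ₗᵢ[ℝ] E,
      ‖T x - y‖ ≤ ε ∧ ‖T (T x) - (2 : ℝ) • T x + x‖ ≤ C * ‖x - y‖ ^ 2 + ε) :
    ∃ (H : Type u) (_ : NormedAddCommGroup H) (_ : InnerProductSpace ℝ H) (_ : CompleteSpace H),
      Nonempty (E ≃ₗᵢ[ℝ] H) := by
  letI : InnerProductSpace ℝ E := InnerProductSpace.ofNorm (𝕜 := ℝ) (fun x y => by
    have := parallelogram_of_bend h x y
    simpa only [sq] using this)
  exact ⟨E, inferInstance, inferInstance, inferInstance, ⟨LinearIsometryEquiv.refl ℝ E⟩⟩
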