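import Pool.Agent.Helper59.Rotation.Rotund

set_option autoImplicit false

open Helper59.Rotation

universe u

/-- **Separable Banach spaces with transitive norm are strictly convex.** Let `E` be a separable
real Banach space whose surjective linear isometries act transitively on the unit sphere. Then the
unit sphere of `E` contains no nontrivial segment: if `‖x‖ = ‖y‖ = 1` and `‖x + y‖ = 2`, then
`x = y`. -/
theorem Pool.Agent.Results.MP_cc72b1_an.StrictlyConvex.result
    (E : Type u) [NormedAddCommGroup E] [NormedSpace ℝ E] [CompleteSpace E]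
    [TopologicalSpace.SeparableSpace E]
    (htrans : ∀ x y : E, ‖x‖ = 1 → ‖y‖ = 1 → ∃ T : E ≃ₗᵢ[ℝ] E, T x = y)
    (x y : E) (hx : ‖x‖ = 1) (hy : ‖y‖ = 1) (hxy : ‖x + y‖ = 2) : x = y :=
  rotund_of_transitive htrans hx hy hxy
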